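import Pool.Agent.H651_Ample.Final

set_option autoImplicit false

namespace Pool.Agent.Results.MP_bfb583_al.DecompositionGroup

universe u

/-- Let `K` be a field all of whose finite Galois extensions have solvable Galois group, and let
`V` be a nontrivial valuation ring, of any rank, of an algebraic closure of `K` whose decomposition
group over `K` has more than two elements. Then `K` is existentially closed in `K((t))`. -/
theorem result {K : Type u} [Field K]
    (H : ∀ (L : Type u) [Field L] [Algebra K L] [FiniteDimensional K L] [IsGalois K L],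
      Group.IsSolvable (L ≃ₐ[K] L))
    (V : ValuationSubring (AlgebraicClosure K)) (hV : V ≠ ⊤)
    (hD : 2 < ENat.card (V.decompositionSubgroup K))
    (n : ℕ) (S : Finset (MvPolynomial (Fin n) K))
    (hS : ∃ x : Fin n → LaurentSeries K, ∀ p ∈ S, MvPolynomial.aeval x p = 0) :
    ∃ y : Fin n → K, ∀ p ∈ S, MvPolynomial.eval y p = 0 := by
  obtain ⟨x, hx⟩ := hS
  have h1 : (3 : ℕ∞) ≤ ENat.card (V.decompositionSubgroup K) := by
    have h2 : (3 : ℕ∞) = 2 + 1 := by norm_num
    rw [h2]
    exact Order.add_one_le_of_lt hD
  refine H651.ample_of_infinite (fun L _ _ _ _ => H L) V hV ?_ S x hx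
  refine h1.trans ?_
  exact Set.encard_le_encard (H651.decomposition_le V)

end Pool.Agent.Results.MP_bfb583_al.DecompositionGroup
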